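import Pool.Agent.H2.SuC

namespace Pool.Agent.Results.MP_8027ba_an.AllTypes

open Set Filter Topology Metric Pool.Agent.H2.Su

/-- the standing hypotheses on the sequence `(K_i)` -/
def Admissible (K : ℕ → Set ℝ) : Prop :=
  (∀ i, IsCompact (K i) ∧ 0 ∈ K i ∧ K i ⊆ Ici 0 ∧ 0 < diam (K i)) ∧
    Tendsto (fun i => diam (K i)) atTop (𝓝 0) ∧ Summable fun i => diam (K i)

/-- the set of all sums `∑ x_j` with `x_j ∈ K_j` -/
def S (K : ℕ → Set ℝ) : Set ℝ := {s | ∃ x : ℕ → ℝ, (∀ j, x j ∈ K j) ∧ HasSum x s}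

lemma Si_eq (e : ℕ → Bool) : Si e = dl (e 0) * xi 0 + ∑' j, dl (e (j + 1)) * xi (j + 1) :=
  (Si_sum e).tsum_eq_zero_add

theorem result (X : Set ℝ) (hne : X.Nonempty) (hX : IsCompact X) (hp : Perfect X) :
    ∃ K : ℕ → Set ℝ, Admissible K ∧ Nonempty (X ≃ₜ S K) := by
  classical
  obtain ⟨H, Hc, Hi, H0, Hn, Ht⟩ := main X hne hX hp.acc
  set Y := H '' X with hY
  have Yc : IsCompact Y := hX.image Hc
  have Y0 : Y ⊆ Ici 0 := by rintro _ ⟨x, _, rfl⟩; exact Hn x
  have Sf : Si (fun _ => false) = 0 := by simp [Si, dl]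
  set K0 : Set ℝ := {z | ∀ e : ℕ → Bool, e 0 = false → z + Si e ∈ Y} with hK0
  have K0Y : K0 ⊆ Y := fun z hz => by simpa [Sf] using hz (fun _ => false) rfl
  have K0c : IsCompact K0 := by
    refine Yc.of_isClosed_subset ?_ K0Y
    simp only [hK0, setOf_forall]
    exact isClosed_iInter fun e => isClosed_iInter fun _ =>
      Yc.isClosed.preimage (continuous_id.add continuous_const)
  have mem : ∀ z (d : ℕ → Bool), (∀ e, z + Si e - Si d ∈ Y) → ∀ b,
      z - Si d + dl b * xi 0 ∈ K0 := by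
    intro z d h b e he
    convert h fun j => Nat.casesOn j b fun j => e (j + 1) using 1
    rw [Si_eq e, Si_eq fun j => Nat.casesOn j b fun j => e (j + 1), he]
    simp only [dl, Nat.rec_zero, Bool.false_eq_true, if_false]
    ring
  obtain ⟨d0, hd0⟩ := Ht 0 H0
  have Sd0 : Si d0 = 0 := by
    have h1 : (0 : ℝ) ≤ 0 + Si (fun _ => false) - Si d0 := Y0 (hd0 fun _ => false)
    have h2 : 0 ≤ Si d0 := tsum_nonneg fun j => mul_nonneg (dl_bd _).1 (xi_pos j).le
    rw [Sf] at h1; linarith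
  have m0 : (0 : ℝ) ∈ K0 := by simpa [Sd0, dl] using mem 0 d0 hd0 false
  have m1 : (1 : ℝ) ∈ K0 := by simpa [Sd0, dl, xi] using mem 0 d0 hd0 true
  set K : ℕ → Set ℝ := fun i => Nat.casesOn i K0 fun j => {0, xi (j + 1)} with hK
  have dK : ∀ j, diam (K (j + 1)) = xi (j + 1) := by
    intro j
    show diam ({0, xi (j + 1)} : Set ℝ) = _
    rw [diam_pair, Real.dist_eq, zero_sub, abs_neg, abs_of_pos (xi_pos _)]
  have sK : Summable fun i => diam (K i) := by
    rw [← summable_nat_add_iff 1]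
    simp only [dK]
    exact (summable_nat_add_iff 1).2 xi_sum
  have SK : S K = Y := by
    ext z
    constructor
    · rintro ⟨x, hx, hs⟩
      set e : ℕ → Bool := fun j => Nat.casesOn j false fun j => decide (x (j + 1) ≠ 0) with he
      have h1 : ∀ j, dl (e (j + 1)) * xi (j + 1) = x (j + 1) := by
        intro j
        rcases hx (j + 1) with h | h
        · simp [he, dl, h]
        · have h' : x (j + 1) = xi (j + 1) := h
          simp [he, dl, h', (xi_pos (j + 1)).ne']
      have := hx 0 e rfl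
      rw [Si_eq] at this
      simp only [h1] at this
      rw [← hs.tsum_eq, hs.summable.tsum_eq_zero_add]
      simpa [he, dl] using this
    · intro hz
      obtain ⟨d, hd⟩ := Ht z hz
      refine ⟨fun j => Nat.casesOn j (z - Si d + dl (d 0) * xi 0)
        fun j => dl (d (j + 1)) * xi (j + 1), ?_, ?_⟩
      · rintro (_ | j)
        · exact mem z d hd _
        · show dl (d (j + 1)) * xi (j + 1) ∈ ({0, xi (j + 1)} : Set ℝ)
          cases d (j + 1) <;> simp [dl]
      · rw [← hasSum_nat_add_iff' 1]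
        have := ((summable_nat_add_iff 1).2 (Si_sum d)).hasSum
        convert this using 1
        rw [Finset.sum_range_one, Si_eq d]
        simp only [Nat.rec_zero]
        ring
  refine ⟨K, ⟨?_, sK.tendsto_atTop_zero, sK⟩, ?_⟩
  · rintro (_ | j)
    · refine ⟨K0c, m0, K0Y.trans Y0, lt_of_lt_of_le ?_ (dist_le_diam_of_mem K0c.isBounded m0 m1)⟩
      simp
    · refine ⟨(toFinite _).isCompact, Or.inl rfl, ?_, by rw [dK]; exact xi_pos _⟩
      rintro _ (rfl | rfl)
      · exact le_refl (0 : ℝ)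
      · exact (xi_pos _).le
  · rw [SK]
    have : CompactSpace X := isCompact_iff_compactSpace.1 hX
    exact ⟨Continuous.homeoOfEquivCompactToT2 (f := Equiv.Set.imageOfInjOn H X Hi)
      ((Hc.comp continuous_subtype_val).subtype_mk _)⟩

end Pool.Agent.Results.MP_8027ba_an.AllTypes
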